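import Mathlib

/-!
# Gaussian binomials as sums over subsets, MP_1e2239_co
-/

open Finset

namespace Pool.Agent.Sgp

variable {K : Type*} [Field K]

/-- The sum of `r ^ (sum of J)` over the `k`-element subsets `J` of `0, ..., L - 1`. -/
noncomputable def E (r : K) (L k : ℕ) : K := ∑ J ∈ (range L).powersetCard k, r ^ (∑ j ∈ J, j)

theorem E_zero_right (r : K) (L : ℕ) : E r L 0 = 1 := by
  simp [E]

theorem E_zero_left (r : K) (k : ℕ) : E r 0 (k + 1) = 0 := by
  rw [E, range_zero, powersetCard_eq_empty.2 (by simp), sum_empty]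

theorem E_succ (r : K) (L k : ℕ) : E r (L + 1) (k + 1) = E r L (k + 1) + r ^ L * E r L k := by
  classical
  unfold E
  rw [range_add_one, powersetCard_succ_insert notMem_range_self, sum_union, sum_image, mul_sum]
  · congr 1
    apply sum_congr rfl
    intro J hJ
    have hL : L ∉ J := fun h => by
      have := (mem_powersetCard.1 hJ).1 h
      simp at this
    rw [sum_insert hL, pow_add]
  · intro J hJ J' hJ' h
    have hL : L ∉ J := fun h => by
      have := (mem_powersetCard.1 hJ).1 h
      simp at this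
    have hL' : L ∉ J' := fun h => by
      have := (mem_powersetCard.1 hJ').1 h
      simp at this
    have := congrArg (fun s => s.erase L) h
    simpa [erase_insert hL, erase_insert hL'] using this
  · rw [disjoint_left]
    intro J hJ hJ'
    obtain ⟨J', hJ'', rfl⟩ := mem_image.1 hJ'
    have := (mem_powersetCard.1 hJ).1 (mem_insert_self L J')
    simp at this

theorem prod_step (r : K) (L k : ℕ) :
    ∏ j ∈ range (k + 1), (r ^ (L + 1) - r ^ j) =
      (r ^ (L + 1) - 1) * r ^ k * ∏ j ∈ range k, (r ^ L - r ^ j) := by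
  rw [prod_range_succ', pow_zero]
  have h : ∏ j ∈ range k, (r ^ (L + 1) - r ^ (j + 1)) = r ^ k * ∏ j ∈ range k, (r ^ L - r ^ j) := by
    calc ∏ j ∈ range k, (r ^ (L + 1) - r ^ (j + 1)) = ∏ j ∈ range k, (r * (r ^ L - r ^ j)) := by
          apply prod_congr rfl
          intro j _
          ring
      _ = _ := by rw [prod_mul_distrib, prod_const, card_range]
  rw [h]
  ring

/-- The product formula for the Gaussian binomials. -/
theorem E_mul (r : K) (L : ℕ) : ∀ k : ℕ,
    E r L k * ∏ j ∈ range k, (r ^ (j + 1) - 1) = ∏ j ∈ range k, (r ^ L - r ^ j) := by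
  induction L with
  | zero =>
    intro k
    cases k with
    | zero => simp [E_zero_right]
    | succ k =>
      rw [E_zero_left, zero_mul]
      symm
      apply prod_eq_zero (mem_range.2 (Nat.succ_pos k))
      simp
  | succ L ih =>
    intro k
    cases k with
    | zero => simp [E_zero_right]
    | succ k =>
      rw [E_succ, prod_step, add_mul, ih (k + 1), prod_range_succ (fun j => r ^ (j + 1) - 1)]
      have h := ih k
      rw [prod_range_succ (fun j => r ^ L - r ^ j)]
      calc (∏ j ∈ range k, (r ^ L - r ^ j)) * (r ^ L - r ^ k) +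
            r ^ L * E r L k * ((∏ j ∈ range k, (r ^ (j + 1) - 1)) * (r ^ (k + 1) - 1))
          = (∏ j ∈ range k, (r ^ L - r ^ j)) * (r ^ L - r ^ k) +
            r ^ L * (r ^ (k + 1) - 1) * (E r L k * ∏ j ∈ range k, (r ^ (j + 1) - 1)) := by ring
        _ = _ := by rw [h]; ring

theorem E_ne_zero {r : K} (hr : r ≠ 0) {L k : ℕ} (hk : k ≤ L) (h : ∀ j, 1 ≤ j → j ≤ L → r ^ j ≠ 1) :
    E r L k ≠ 0 := by
  intro h0
  have h1 := E_mul r L k
  rw [h0, zero_mul] at h1
  symm at h1
  rw [prod_eq_zero_iff] at h1
  obtain ⟨j, hj, h2⟩ := h1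
  rw [mem_range] at hj
  apply h (L - j) (by omega) (by omega)
  have h3 : r ^ (L - j) * r ^ j = 1 * r ^ j := by
    rw [← pow_add, Nat.sub_add_cancel (by omega), one_mul]
    exact sub_eq_zero.1 h2
  exact mul_right_cancel₀ (pow_ne_zero _ hr) h3

end Pool.Agent.Sgp
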