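import Pool.Agent.Sgp.Window

/-!
# Singer sets for all prime powers, and the rulers, MP_1e2239_co
-/

open Finset

namespace Pool.Agent.Sgp

section Trace

variable {K : Type*} [Field K] {q : ℕ}

theorem tr_add (hadd : ∀ x y : K, (x + y) ^ q = x ^ q + y ^ q) (x y : K) :
    tr q (x + y) = tr q x + tr q y := by
  have h2 : ∀ x y : K, (x + y) ^ (q ^ 2) = x ^ (q ^ 2) + y ^ (q ^ 2) := by
    intro x y
    rw [pow_two, pow_mul, pow_mul, pow_mul, hadd, hadd]
  unfold tr
  rw [hadd, h2]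
  ring

theorem tr_sub (hadd : ∀ x y : K, (x + y) ^ q = x ^ q + y ^ q) (x y : K) :
    tr q (x - y) = tr q x - tr q y := by
  have h := tr_add hadd (x - y) y
  rw [sub_add_cancel] at h
  rw [h]; ring

theorem tr_mul {c : K} (hc : c ^ q = c) (x : K) : tr q (c * x) = c * tr q x := by
  unfold tr
  rw [mul_pow, mul_pow, hc]
  have : c ^ (q ^ 2) = c := by rw [pow_two, pow_mul, hc, hc]
  rw [this]
  ring

theorem tr_fix (hadd : ∀ x y : K, (x + y) ^ q = x ^ q + y ^ q) (hK : ∀ x : K, x ^ (q ^ 3) = x)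
    (x : K) : tr q x ^ q = tr q x := by
  unfold tr
  rw [hadd, hadd, ← pow_mul, ← pow_mul, ← pow_two, ← pow_succ, hK]
  ring

/-- Two vectors orthogonal to `1` and `g`, `g` not in the subfield, are proportional. -/
theorem prop (hK : ∀ x : K, x ^ (q ^ 3) = x)
    {g x y : K}
    (hg : g ^ q ≠ g) (hx : tr q x = 0) (hgx : tr q (g * x) = 0) (hy : tr q y = 0)
    (hgy : tr q (g * y) = 0) : x * y ^ q = y * x ^ q := by
  unfold tr at hx hgx hy hgy
  rw [mul_pow, mul_pow] at hgx hgy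
  have hne : g - g ^ (q ^ 2) ≠ 0 := by
    intro h0
    apply hg
    have h1 : g = g ^ (q ^ 2) := sub_eq_zero.1 h0
    calc g ^ q = (g ^ (q ^ 2)) ^ q := by rw [← h1]
      _ = g ^ (q ^ 3) := by rw [← pow_mul, ← pow_succ]
      _ = g := hK g
  apply mul_left_cancel₀ hne
  linear_combination (y ^ q) * hgx - (x ^ q) * hgy -
    g ^ (q ^ 2) * (y ^ q) * hx + g ^ (q ^ 2) * (x ^ q) * hy

/-- There is a vector orthogonal to `1` and `g`. -/
theorem exists_orth [Fintype K] [DecidableEq K] (hq2 : 2 ≤ q)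
    (hadd : ∀ x y : K, (x + y) ^ q = x ^ q + y ^ q)
    (hcard : Fintype.card K = q ^ 3)
    (hK : ∀ x : K, x ^ (q ^ 3) = x) (g : K) :
    ∃ x : K, x ≠ 0 ∧ tr q x = 0 ∧ tr q (g * x) = 0 := by
  let F := {c : K // c ^ q = c}
  have hF : Fintype.card F ≤ q := by
    have h1 : Fintype.card F = (univ.filter fun c : K => c ^ q = c).card :=
      Fintype.card_subtype _
    rw [h1]
    have h2 : (univ.filter fun c : K => c ^ q = c) ⊆
        insert 0 ((univ.filter fun u : Kˣ => u ^ (q - 1) = 1).image fun u : Kˣ => (u : K)) := by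
      intro c hc
      rw [mem_filter] at hc
      rw [mem_insert]
      by_cases h0 : c = 0
      · exact Or.inl h0
      · right
        rw [mem_image]
        refine ⟨Units.mk0 c h0, ?_, rfl⟩
        rw [mem_filter]
        refine ⟨mem_univ _, ?_⟩
        apply Units.ext
        push_cast
        rw [Units.val_mk0]
        apply mul_left_cancel₀ h0
        rw [← pow_succ', Nat.sub_add_cancel (by omega), hc.2, mul_one]
    refine (card_le_card h2).trans ((card_insert_le _ _).trans ?_)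
    have h3 := IsCyclic.card_pow_eq_one_le (α := Kˣ) (n := q - 1) (by omega)
    have h4 := (card_image_le (s := univ.filter fun u : Kˣ => u ^ (q - 1) = 1)
      (f := fun u : Kˣ => (u : K)))
    omega
  let f : K → F × F := fun x =>
    (⟨tr q x, tr_fix hadd hK x⟩, ⟨tr q (g * x), tr_fix hadd hK (g * x)⟩)
  obtain ⟨x, y, hxy, hf⟩ := Fintype.exists_ne_map_eq_of_card_lt f (by
    rw [Fintype.card_prod, hcard]
    calc Fintype.card F * Fintype.card F ≤ q * q := Nat.mul_le_mul hF hF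
      _ < q ^ 3 := by
        have : q ^ 3 = q * (q * q) := by ring
        rw [this]
        have h0 : 0 < q * q := by positivity
        nlinarith)
  have h1 : tr q x = tr q y := congrArg (fun z => (z.1 : K)) hf
  have h2 : tr q (g * x) = tr q (g * y) := congrArg (fun z => (z.2 : K)) hf
  refine ⟨x - y, sub_ne_zero.2 hxy, ?_, ?_⟩
  · rw [tr_sub hadd, h1, sub_self]
  · rw [mul_sub, tr_sub hadd, h2, sub_self]

end Trace

/-- A planar difference set `A` in `Z/v`, `v = q ^ 2 + q + 1`, with a window of `G` free residues. -/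
structure PDS (q v : ℕ) (A : Finset (ZMod v)) : Prop where
  hv : v = q ^ 2 + q + 1
  hq : 2 ≤ q
  card : A.card = q + 1
  sidon : ∀ a ∈ A, ∀ b ∈ A, ∀ c ∈ A, ∀ d ∈ A, a ≠ b → a - b = c - d → a = c ∧ b = d

/-- SINGER.  For every prime power `q` there is a planar difference set, and `2 q - 1` consecutive residues
outside it. -/
theorem singer (q : ℕ) (hq : IsPrimePow q) :
    ∃ A : Finset (ZMod (q ^ 2 + q + 1)), PDS q (q ^ 2 + q + 1) A ∧
      ∃ s : ZMod (q ^ 2 + q + 1), ∀ i : ℕ, i < 2 * q - 1 → s + (i : ZMod (q ^ 2 + q + 1)) ∉ A := by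
  classical
  obtain ⟨p, e, hp, he, rfl⟩ := hq
  have hp' : Nat.Prime p := hp.nat_prime
  have : Fact (Nat.Prime p) := ⟨hp'⟩
  let K := GaloisField p (3 * e)
  let _ : Fintype K := Fintype.ofFinite K
  have hcard : Fintype.card K = (p ^ e) ^ 3 := by
    rw [← Nat.card_eq_fintype_card]
    change Nat.card (GaloisField p (3 * e)) = _
    rw [GaloisField.card p (3 * e) (by omega), ← pow_mul, mul_comm]
  have hadd : ∀ x y : K, (x + y) ^ (p ^ e) = x ^ (p ^ e) + y ^ (p ^ e) := fun x y =>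
    add_pow_char_pow x y p e
  set q := p ^ e with hq
  have hK : ∀ x : K, x ^ (q ^ 3) = x := by
    intro x
    have h := FiniteField.pow_card x
    rwa [hcard] at h
  have hq2 : 2 ≤ q := by
    calc 2 ≤ p := hp'.two_le
      _ = p ^ 1 := (pow_one p).symm
      _ ≤ p ^ e := Nat.pow_le_pow_right hp'.pos he
  set v := q ^ 2 + q + 1 with hv
  have : NeZero v := ⟨by omega⟩
  obtain ⟨w, hw⟩ := IsCyclic.exists_generator (α := Kˣ)
  have hord : orderOf w = (q - 1) * v := by
    rw [orderOf_eq_card_of_forall_mem_zpowers hw, Nat.card_eq_fintype_card,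
      Fintype.card_units, hcard, hv]
    obtain ⟨r, hr⟩ : ∃ r, q = r + 1 := ⟨q - 1, by omega⟩
    rw [hr, Nat.add_sub_cancel]
    have : (r + 1) ^ 3 = r * ((r + 1) ^ 2 + (r + 1) + 1) + 1 := by ring
    rw [this, Nat.add_sub_cancel]
  -- elements of the subfield
  have hsub : ∀ n : ℤ, ((w ^ n : Kˣ) : K) ^ q = ((w ^ n : Kˣ) : K) ↔ (v : ℤ) ∣ n := by
    intro n
    have h1 : ((w ^ n : Kˣ) : K) ^ q = ((w ^ n : Kˣ) : K) ↔ (w ^ n) ^ ((q : ℤ)) = w ^ n := by
      rw [Units.ext_iff]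
      push_cast
      rw [zpow_natCast]
    rw [h1, ← zpow_mul]
    have h2 : w ^ (n * (q : ℤ)) = w ^ n ↔ w ^ (n * ((q : ℤ) - 1)) = 1 := by
      rw [mul_sub, mul_one, zpow_sub, mul_inv_eq_one]
    rw [h2, ← orderOf_dvd_iff_zpow_eq_one, hord]
    have hq1 : ((q : ℤ) - 1) ≠ 0 := by
      have : (2 : ℤ) ≤ q := by exact_mod_cast hq2
      omega
    have h3 : (((q - 1) * v : ℕ) : ℤ) = ((q : ℤ) - 1) * v := by
      push_cast [Nat.cast_sub (by omega : 1 ≤ q)]
      ring
    rw [h3, mul_comm n]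
    exact mul_dvd_mul_iff_left hq1
  let S : ℤ → Prop := fun n => tr q ((w ^ n : Kˣ) : K) = 0
  have hS : ∀ n m : ℤ, (v : ℤ) ∣ n - m → (S n ↔ S m) := by
    intro n m h
    have h1 := (hsub (n - m)).2 h
    have h2 : ((w ^ n : Kˣ) : K) = ((w ^ (n - m) : Kˣ) : K) * ((w ^ m : Kˣ) : K) := by
      rw [← Units.val_mul, ← zpow_add, sub_add_cancel]
    change tr q ((w ^ n : Kˣ) : K) = 0 ↔ tr q ((w ^ m : Kˣ) : K) = 0
    rw [h2, tr_mul h1, mul_eq_zero]
    exact ⟨fun h => h.resolve_left (Units.ne_zero _), Or.inr⟩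
  let A : Finset (ZMod v) := univ.filter fun j => S (j.val : ℤ)
  have hA : ∀ n : ℤ, (n : ZMod v) ∈ A ↔ S n := by
    intro n
    rw [mem_filter]
    simp only [mem_univ, true_and]
    apply hS
    rw [← ZMod.intCast_zmod_eq_zero_iff_dvd]
    push_cast
    rw [ZMod.natCast_val, ZMod.cast_id', id, sub_self]
  have hlift : ∀ a : ZMod v, ∃ n : ℤ, (n : ZMod v) = a := ZMod.intCast_surjective
  have hcastne : ∀ n : ℤ, (n : ZMod v) = 0 ↔ (v : ℤ) ∣ n := fun n =>
    ZMod.intCast_zmod_eq_zero_iff_dvd n v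
  have hsidon : ∀ a ∈ A, ∀ b ∈ A, ∀ c ∈ A, ∀ d ∈ A, a ≠ b → a - b = c - d → a = c ∧ b = d := by
    intro a ha b hb c hc d hd hab habcd
    obtain ⟨b', rfl⟩ := hlift b
    obtain ⟨d', rfl⟩ := hlift d
    obtain ⟨δ, hδ⟩ := hlift (a - (b' : ZMod v))
    have hδ0 : ¬ (v : ℤ) ∣ δ := by
      rw [← hcastne, hδ]
      exact sub_ne_zero.2 hab
    have ha' : a = ((δ + b' : ℤ) : ZMod v) := by push_cast; rw [hδ]; ring
    have hc' : c = ((δ + d' : ℤ) : ZMod v) := by push_cast; rw [hδ, habcd]; ring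
    rw [ha', hA] at ha
    rw [hc', hA] at hc
    rw [hA] at hb hd
    have hg : ((w ^ δ : Kˣ) : K) ^ q ≠ ((w ^ δ : Kˣ) : K) := fun h => hδ0 ((hsub δ).1 h)
    have ha2 : tr q (((w ^ δ : Kˣ) : K) * ((w ^ b' : Kˣ) : K)) = 0 := by
      rw [← Units.val_mul, ← zpow_add]; exact ha
    have hc2 : tr q (((w ^ δ : Kˣ) : K) * ((w ^ d' : Kˣ) : K)) = 0 := by
      rw [← Units.val_mul, ← zpow_add]; exact hc
    have hpr := prop hK hg hb ha2 hd hc2
    have hbd : (v : ℤ) ∣ b' - d' := by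
      rw [← hsub]
      have hd0 : ((w ^ d' : Kˣ) : K) ≠ 0 := Units.ne_zero _
      have e1 : ((w ^ (b' - d') : Kˣ) : K) = ((w ^ b' : Kˣ) : K) / ((w ^ d' : Kˣ) : K) := by
        rw [zpow_sub, Units.val_mul, Units.val_inv_eq_inv_val, div_eq_mul_inv]
      rw [e1, div_pow, div_eq_div_iff (pow_ne_zero _ hd0) hd0]
      linear_combination -hpr
    have hbd' : (b' : ZMod v) = (d' : ZMod v) := by
      rw [← sub_eq_zero]
      have := (hcastne (b' - d')).2 hbd
      push_cast at this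
      exact this
    refine ⟨?_, hbd'⟩
    rw [ha', hc']
    push_cast
    rw [hbd']
  have hdiff : ∀ d : ZMod v, d ≠ 0 → ∃ a ∈ A, ∃ b ∈ A, a - b = d := by
    intro d _
    obtain ⟨δ, rfl⟩ := hlift d
    obtain ⟨x, hx0, hx1, hx2⟩ := exists_orth hq2 hadd hcard hK ((w ^ δ : Kˣ) : K)
    obtain ⟨n, hn⟩ := hw (Units.mk0 x hx0)
    have hxn : x = ((w ^ n : Kˣ) : K) := by
      have : w ^ n = Units.mk0 x hx0 := hn
      rw [this]; rfl
    refine ⟨((δ + n : ℤ) : ZMod v), ?_, (n : ZMod v), ?_, by push_cast; ring⟩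
    · rw [hA]
      change tr q ((w ^ (δ + n) : Kˣ) : K) = 0
      rw [zpow_add, Units.val_mul, ← hxn]
      exact hx2
    · rw [hA]
      change tr q ((w ^ n : Kˣ) : K) = 0
      rw [← hxn]
      exact hx1
  refine ⟨A, ⟨rfl, hq2, ?_, hsidon⟩, ?_⟩
  · -- cardinality
    have h1 : A.offDiag.card = (univ.erase (0 : ZMod v)).card := by
      apply card_bij (fun p _ => p.1 - p.2)
      · intro p hp
        rw [mem_offDiag] at hp
        exact mem_erase.2 ⟨sub_ne_zero.2 hp.2.2, mem_univ _⟩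
      · intro p hp p' hp' hpp
        rw [mem_offDiag] at hp hp'
        have := hsidon _ hp.1 _ hp.2.1 _ hp'.1 _ hp'.2.1 hp.2.2 hpp
        exact Prod.ext this.1 this.2
      · intro d hd
        obtain ⟨a, ha, b, hb, hab⟩ := hdiff d (ne_of_mem_erase hd)
        refine ⟨(a, b), ?_, hab⟩
        rw [mem_offDiag]
        refine ⟨ha, hb, ?_⟩
        rw [← sub_ne_zero]
        simp only
        rw [hab]
        exact ne_of_mem_erase hd
    rw [offDiag_card, card_erase_of_mem (mem_univ _), card_univ, ZMod.card] at h1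
    have hv1 : v - 1 = q ^ 2 + q := by omega
    rw [hv1] at h1
    have h2 : A.card * A.card = q ^ 2 + q + A.card := by
      have : A.card ≤ A.card * A.card := Nat.le_mul_self _
      omega
    by_contra hne
    rcases Nat.lt_or_gt_of_ne hne with h | h
    · nlinarith
    · nlinarith
  · -- the window
    have hwin : ∀ j, 1 ≤ j → j ≤ 2 * q - 1 → (((w : K)) ^ (q - 1)) ^ j ≠ 1 := by
      intro j hj1 hj2 h
      have h1 : w ^ ((q - 1) * j) = 1 := by
        apply Units.ext
        push_cast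
        rw [pow_mul]
        exact h
      have h2 := orderOf_dvd_of_pow_eq_one h1
      rw [hord] at h2
      have h3 : v ∣ j := Nat.dvd_of_mul_dvd_mul_left (by omega) h2
      have h4 := Nat.le_of_dvd (by omega) h3
      have h5 : 2 * q ≤ q ^ 2 := by nlinarith
      omega
    obtain ⟨x, hx0, hx⟩ := exists_window hq2 hcard w.ne_zero hwin
    obtain ⟨n, hn⟩ := hw (Units.mk0 x hx0)
    have hxn : x = ((w ^ n : Kˣ) : K) := by
      have : w ^ n = Units.mk0 x hx0 := hn
      rw [this]; rfl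
    refine ⟨(n : ZMod v), fun i hi hmem => ?_⟩
    have h1 : (n : ZMod v) + (i : ZMod v) = ((n + (i : ℤ) : ℤ) : ZMod v) := by push_cast; ring
    rw [h1, hA] at hmem
    apply hx i hi
    change tr q ((w ^ (n + (i : ℤ)) : Kˣ) : K) = 0 at hmem
    rw [zpow_add, zpow_natCast, Units.val_mul, ← hxn, Units.val_pow_eq_pow_val] at hmem
    rw [mul_comm ((w : K) ^ i) x]
    exact hmem

/-- THE RULER.  A planar difference set with `G` consecutive residues outside it gives a Golomb ruler of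
length less than `v - G`. -/
theorem ruler {q v : ℕ} {A : Finset (ZMod v)} (h : PDS q v A) {G : ℕ} (hG : G < v) (s : ZMod v)
    (hs : ∀ i : ℕ, i < G → s + (i : ZMod v) ∉ A) :
    ∃ B : Finset ℕ, B.card = q + 1 ∧ (∀ x ∈ B, x + G < v) ∧
      ∀ a ∈ B, ∀ b ∈ B, ∀ c ∈ B, ∀ d ∈ B, b < a → d < c → a - b = c - d → a = c ∧ b = d := by
  classical
  have : NeZero v := ⟨by omega⟩
  let r : ZMod v → ℕ := fun a => (a - s - (G : ZMod v)).val
  have hr : ∀ a, (r a : ZMod v) = a - s - (G : ZMod v) := fun a => ZMod.natCast_zmod_val _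
  have hlt : ∀ a, r a < v := fun a => ZMod.val_lt _
  have hinj : ∀ a b, r a = r b → a = b := by
    intro a b e
    have := congrArg (fun n : ℕ => (n : ZMod v)) e
    simp only [hr] at this
    linear_combination this
  refine ⟨A.image r, ?_, ?_, ?_⟩
  · rw [card_image_of_injOn (fun a _ b _ e => hinj a b e), h.card]
  · intro x hx
    obtain ⟨a, ha, rfl⟩ := mem_image.1 hx
    by_contra hcon
    have h1 := hlt a
    apply hs (r a + G - v) (by omega)
    have h2 : s + ((r a + G - v : ℕ) : ZMod v) = a := by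
      rw [Nat.cast_sub (by omega), Nat.cast_add, hr, ZMod.natCast_self]
      ring
    rw [h2]
    exact ha
  · intro a' ha' b' hb' c' hc' d' hd' hba hdc e
    obtain ⟨a, ha, rfl⟩ := mem_image.1 ha'
    obtain ⟨b, hb, rfl⟩ := mem_image.1 hb'
    obtain ⟨c, hc, rfl⟩ := mem_image.1 hc'
    obtain ⟨d, hd, rfl⟩ := mem_image.1 hd'
    have e1 : r a + r d = r c + r b := by omega
    have e2 : a - b = c - d := by
      have := congrArg (fun n : ℕ => (n : ZMod v)) e1
      simp only [Nat.cast_add, hr] at this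
      linear_combination this
    have hab : a ≠ b := by
      rintro rfl
      omega
    obtain ⟨rfl, rfl⟩ := h.sidon a ha b hb c hc d hd hab e2
    exact ⟨rfl, rfl⟩

/-- For every prime power `q` there is a Golomb ruler with `q + 1` marks and length at most `q ^ 2 - q + 1`. -/
theorem main (q : ℕ) (hq : IsPrimePow q) :
    ∃ B : Finset ℕ, B.card = q + 1 ∧ (∀ x ∈ B, x + q ≤ q ^ 2 + 1) ∧
      ∀ a ∈ B, ∀ b ∈ B, ∀ c ∈ B, ∀ d ∈ B, b < a → d < c → a - b = c - d → a = c ∧ b = d := by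
  obtain ⟨A, hA, s, hs⟩ := singer q hq
  have h2 := hA.hq
  have h5 : 2 * q ≤ q ^ 2 := by nlinarith
  obtain ⟨B, h1, h3, h4⟩ := ruler hA (G := 2 * q - 1) (by omega) s hs
  refine ⟨B, h1, fun x hx => ?_, h4⟩
  have := h3 x hx
  omega

end Pool.Agent.Sgp
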