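import Pool.Agent.Sgp.Gauss

/-!
# A window of `2 q - 1` nonzero traces, MP_1e2239_co
-/

open Finset

namespace Pool.Agent.Sgp

variable {K : Type*} [Field K]

/-- The trace to the subfield with `q` elements. -/
def tr (q : ℕ) (x : K) : K := x + x ^ q + x ^ (q ^ 2)

/-- The expansion of the product of the traces. -/
theorem prod_expand (q L : ℕ) (w x : K) :
    ∏ i ∈ range L, tr q (w ^ i * x) =
      ∑ T ∈ (range L).powerset, ∑ S ∈ T.powerset,
        (w ^ (∑ i ∈ S, i) * w ^ (q * ∑ i ∈ T \ S, i) * w ^ (q ^ 2 * ∑ i ∈ range L \ T, i)) *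
          x ^ (S.card + q * (T \ S).card + q ^ 2 * (range L \ T).card) := by
  classical
  unfold tr
  rw [prod_add]
  apply sum_congr rfl
  intro T _
  rw [prod_add, sum_mul]
  apply sum_congr rfl
  intro S _
  have h1 : ∏ i ∈ S, w ^ i * x = w ^ (∑ i ∈ S, i) * x ^ S.card := by
    rw [prod_mul_distrib, prod_const, prod_pow_eq_pow_sum]
  have h2 : ∏ i ∈ T \ S, (w ^ i * x) ^ q = w ^ (q * ∑ i ∈ T \ S, i) * x ^ (q * (T \ S).card) := by
    rw [prod_pow, prod_mul_distrib, prod_const, prod_pow_eq_pow_sum, mul_pow, ← pow_mul, ← pow_mul,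
      mul_comm q, mul_comm q]
  have h3 : ∏ i ∈ range L \ T, (w ^ i * x) ^ (q ^ 2) =
      w ^ (q ^ 2 * ∑ i ∈ range L \ T, i) * x ^ (q ^ 2 * (range L \ T).card) := by
    rw [prod_pow, prod_mul_distrib, prod_const, prod_pow_eq_pow_sum, mul_pow, ← pow_mul, ← pow_mul,
      mul_comm (q ^ 2), mul_comm (q ^ 2)]
  rw [h1, h2, h3, pow_add, pow_add]
  ring

theorem expo_aux (q a b c t : ℤ) (hq : 2 ≤ q) (ha : 0 ≤ a) (hb : 0 ≤ b) (hc : 0 ≤ c)
    (h : a + b + c = 2 * q - 1)
    (e : a + q * b + q ^ 2 * c + q ^ 3 = q ^ 2 + 1 + (q ^ 3 - 1) * t) :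
    a = q ∧ b = q - 1 ∧ c = 0 := by
  have hq3 : 0 < q ^ 3 - 1 := by nlinarith [sq_nonneg q]
  have hn1 : a + q * b + q ^ 2 * c ≤ q ^ 2 * (2 * q - 1) := by
    rw [← h]
    nlinarith [mul_nonneg ha (by nlinarith : (0:ℤ) ≤ q ^ 2 - 1), mul_nonneg hb (by nlinarith : (0:ℤ) ≤ q ^ 2 - q)]
  have hn0 : 0 ≤ a + q * b + q ^ 2 * c := by positivity
  have ht0 : 0 < t := by
    by_contra hcon
    rw [not_lt] at hcon
    have h1 : (q ^ 3 - 1) * t ≤ 0 := mul_nonpos_of_nonneg_of_nonpos hq3.le hcon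
    have h2 : a + b + c ≤ a + q * b + q ^ 2 * c := by
      nlinarith [mul_nonneg hb (by linarith : (0:ℤ) ≤ q - 1), mul_nonneg hc (by nlinarith : (0:ℤ) ≤ q ^ 2 - 1)]
    nlinarith
  have ht2 : t < 3 := by
    by_contra hcon
    rw [not_lt] at hcon
    have h1 : (q ^ 3 - 1) * 3 ≤ (q ^ 3 - 1) * t := mul_le_mul_of_nonneg_left hcon hq3.le
    nlinarith
  have ht : t = 1 ∨ t = 2 := by omega
  have ha' : a = 2 * q - 1 - b - c := by linarith
  rcases ht with rfl | rfl
  · have e1 : a + q * b + q ^ 2 * c = q ^ 2 := by linarith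
    have hc1 : c = 0 := by
      by_contra hcon
      have hc2 : 1 ≤ c := by omega
      have : q ^ 2 ≤ q ^ 2 * c := by nlinarith
      have hqb : 0 ≤ q * b := by positivity
      have h3 : a + q * b = 0 := by nlinarith
      have h4 : a = 0 := by linarith
      have h5 : b = 0 := by nlinarith
      subst h4 h5
      have h6 : c = 2 * q - 1 := by linarith
      rw [h6] at e1
      nlinarith
    subst hc1
    have h2 : (q - 1) * b = (q - 1) * (q - 1) := by
      rw [ha'] at e1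
      linarith
    have h3 : b = q - 1 := mul_left_cancel₀ (by omega) h2
    exact ⟨by omega, h3, rfl⟩
  · exfalso
    have e1 : (q - 1) * (b + c * (q + 1)) = (q - 1) * (q ^ 2 + 2 * q) := by
      rw [ha'] at e
      linarith
    have e2 : b + c * (q + 1) = q ^ 2 + 2 * q := mul_left_cancel₀ (by omega) e1
    have h3 : q + 1 ≤ c := by
      by_contra hcon
      have : c ≤ q := by omega
      nlinarith
    nlinarith

/-- The only exponents that count. -/
theorem expo (q a b c : ℕ) (hq : 2 ≤ q) (h : a + b + c = 2 * q - 1)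
    (hd : q ^ 3 - 1 ∣ (q ^ 3 - 1 - q ^ 2) + (a + q * b + q ^ 2 * c)) : a = q ∧ b = q - 1 ∧ c = 0 := by
  obtain ⟨t, ht⟩ := hd
  have hle : q ^ 2 + 1 ≤ q ^ 3 := by nlinarith [sq_nonneg q]
  have e : a + q * b + q ^ 2 * c + q ^ 3 = q ^ 2 + 1 + (q ^ 3 - 1) * t := by omega
  have e' : (a : ℤ) + q * b + (q : ℤ) ^ 2 * c + (q : ℤ) ^ 3 = (q : ℤ) ^ 2 + 1 + ((q : ℤ) ^ 3 - 1) * t := by
    have h1 := congrArg (fun n : ℕ => (n : ℤ)) e
    push_cast [Nat.cast_sub (by omega : 1 ≤ q ^ 3)] at h1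
    exact h1
  have h' : (a : ℤ) + b + c = 2 * q - 1 := by omega
  obtain ⟨h1, h2, h3⟩ := expo_aux q a b c t (by exact_mod_cast hq) (by positivity) (by positivity)
    (by positivity) h' e'
  exact ⟨by omega, by omega, by omega⟩

theorem expo_mp (q : ℕ) (hq : 2 ≤ q) :
    q ^ 3 - 1 ∣ (q ^ 3 - 1 - q ^ 2) + (q + q * (q - 1) + q ^ 2 * 0) := by
  refine ⟨1, ?_⟩
  have h0 : q * (q - 1) = q ^ 2 - q := by rw [Nat.mul_sub, mul_one, pow_two]
  have h1 : q ≤ q ^ 2 := by nlinarith
  have hle : q ^ 2 + 1 ≤ q ^ 3 := by nlinarith [sq_nonneg q]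
  omega

/-- A WINDOW.  If no `(w ^ (q - 1)) ^ j`, `1 ≤ j ≤ 2 q - 1`, is `1`, then some `x ≠ 0` has
`tr (w ^ i x) ≠ 0` for all `i < 2 q - 1`. -/
theorem exists_window {q : ℕ} (hq : 2 ≤ q) [Fintype K] (hK : Fintype.card K = q ^ 3) {w : K}
    (hw : w ≠ 0) (hord : ∀ j, 1 ≤ j → j ≤ 2 * q - 1 → (w ^ (q - 1)) ^ j ≠ 1) :
    ∃ x : K, x ≠ 0 ∧ ∀ i < 2 * q - 1, tr q (w ^ i * x) ≠ 0 := by
  classical
  by_contra hcon
  have hzero : ∀ x : K, x ≠ 0 → ∏ i ∈ range (2 * q - 1), tr q (w ^ i * x) = 0 := by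
    intro x hx
    by_contra h
    apply hcon
    refine ⟨x, hx, fun i hi h0 => h (prod_eq_zero (mem_range.2 hi) h0)⟩
  set L := 2 * q - 1 with hL
  set N := q ^ 3 - 1 - q ^ 2 with hN
  have hsum : ∑ x : Kˣ, (∏ i ∈ range L, tr q (w ^ i * (x : K))) * (x : K) ^ N = 0 := by
    apply sum_eq_zero
    intro x _
    rw [hzero x x.ne_zero, zero_mul]
  have hstep : ∀ x : Kˣ, (∏ i ∈ range L, tr q (w ^ i * (x : K))) * (x : K) ^ N =
      ∑ T ∈ (range L).powerset, ∑ S ∈ T.powerset,
        (w ^ (∑ i ∈ S, i) * w ^ (q * ∑ i ∈ T \ S, i) * w ^ (q ^ 2 * ∑ i ∈ range L \ T, i)) *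
          (x : K) ^ (N + (S.card + q * (T \ S).card + q ^ 2 * (range L \ T).card)) := by
    intro x
    rw [prod_expand, sum_mul]
    apply sum_congr rfl
    intro T _
    rw [sum_mul]
    apply sum_congr rfl
    intro S _
    rw [pow_add (x : K) N]
    ring
  rw [sum_congr rfl (fun x _ => hstep x), sum_comm] at hsum
  have hinner : ∀ T ∈ (range L).powerset, ∑ x : Kˣ, ∑ S ∈ T.powerset,
        (w ^ (∑ i ∈ S, i) * w ^ (q * ∑ i ∈ T \ S, i) * w ^ (q ^ 2 * ∑ i ∈ range L \ T, i)) *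
          (x : K) ^ (N + (S.card + q * (T \ S).card + q ^ 2 * (range L \ T).card)) =
      ∑ S ∈ T.powerset, if T = range L ∧ S.card = q then
        -(w ^ (∑ i ∈ S, i) * w ^ (q * ∑ i ∈ T \ S, i)) else 0 := by
    intro T hT
    rw [sum_comm]
    apply sum_congr rfl
    intro S hS
    rw [← mul_sum]
    have hs := FiniteField.sum_pow_units K
      (N + (S.card + q * (T \ S).card + q ^ 2 * (range L \ T).card))
    rw [hs, hK]
    have hTL := mem_powerset.1 hT
    have hST := mem_powerset.1 hS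
    have hc1 : (T \ S).card = T.card - S.card := card_sdiff_of_subset hST
    have hc2 : (range L \ T).card = L - T.card := by rw [card_sdiff_of_subset hTL, card_range]
    have hl1 : T.card ≤ L := by simpa using card_le_card hTL
    have hl2 : S.card ≤ T.card := card_le_card hST
    split_ifs with h1 h2 h2
    · obtain ⟨rfl, -⟩ := h2
      simp
    · exfalso
      apply h2
      obtain ⟨e1, e2, e3⟩ := expo q S.card (T \ S).card (range L \ T).card hq (by omega) h1
      refine ⟨?_, e1⟩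
      apply eq_of_subset_of_card_le hTL
      rw [card_range]
      omega
    · exfalso
      apply h1
      obtain ⟨rfl, h3⟩ := h2
      have e3 : (range L \ range L).card = 0 := by simp
      have e2 : (range L \ S).card = q - 1 := by
        rw [hc1, card_range, h3]
        omega
      rw [e3, e2, h3]
      exact expo_mp q hq
    · ring
  rw [sum_congr rfl hinner] at hsum
  -- only T = range L contributes
  rw [sum_eq_single_of_mem (range L) (mem_powerset.2 (Subset.refl _))] at hsum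
  swap
  · intro T _ hT
    apply sum_eq_zero
    intro S _
    rw [if_neg]
    exact fun h => hT h.1
  simp only [true_and] at hsum
  rw [← sum_filter, sum_neg_distrib, neg_eq_zero] at hsum
  have hE : ∑ S ∈ (range L).powerset with S.card = q,
      w ^ (∑ i ∈ S, i) * w ^ (q * ∑ i ∈ range L \ S, i) =
      w ^ (∑ i ∈ range L, i) * E (w ^ (q - 1)) L (q - 1) := by
    unfold E
    rw [mul_sum]
    apply sum_bij' (fun S _ => range L \ S) (fun J _ => range L \ J)
    · intro S hS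
      rw [mem_filter, mem_powerset] at hS
      rw [mem_powersetCard]
      refine ⟨sdiff_subset, ?_⟩
      rw [card_sdiff_of_subset hS.1, card_range, hS.2]
      omega
    · intro J hJ
      rw [mem_powersetCard] at hJ
      rw [mem_filter, mem_powerset]
      refine ⟨sdiff_subset, ?_⟩
      rw [card_sdiff_of_subset hJ.1, card_range, hJ.2]
      omega
    · intro S hS
      rw [mem_filter, mem_powerset] at hS
      exact Finset.sdiff_sdiff_eq_self hS.1
    · intro J hJ
      rw [mem_powersetCard] at hJ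
      exact Finset.sdiff_sdiff_eq_self hJ.1
    · intro S hS
      rw [mem_filter, mem_powerset] at hS
      have h1 : ∑ i ∈ range L, i = ∑ i ∈ S, i + ∑ i ∈ range L \ S, i := by
        rw [add_comm]
        exact (sum_sdiff hS.1).symm
      rw [h1, ← pow_add, ← pow_mul, ← pow_add]
      congr 1
      obtain ⟨r, rfl⟩ : ∃ r, q = r + 1 := ⟨q - 1, by omega⟩
      rw [Nat.add_sub_cancel]
      ring
  rw [hE] at hsum
  rcases mul_eq_zero.1 hsum with h | h
  · exact pow_ne_zero _ hw h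
  · exact E_ne_zero (pow_ne_zero _ hw) (by omega) hord h

end Pool.Agent.Sgp
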